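import Mathlib
import Pool.Agent.H45.Lib.S8.W97.MT.Defs
import Pool.Agent.H45.Lib.S8.TH841.NF.ShaN
import Pool.Agent.H45.Lib.S8.H300R2.HWPoints

/-!
# The 2-part of the Birch and Swinnerton-Dyer conjecture for `X_0(14)` over odd degree subfields of
cyclotomic fields: statements of the independent parts
-/

set_option autoImplicit false

open NumberField IsDedekindDomain WithZero

namespace Pool.Agent.Y682.XT

open Pool.Agent.W97.MT (E14 ap)

open scoped Classical

/-! ### Analytic class number formula -/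

/-- DET: the group determinant without the trivial element. -/
def S_DET : Prop := ∀ (G : Type) [CommGroup G] [Fintype G] (f : G → ℝ) (S : Finset (G →* ℂˣ)),
  (∀ χ : G →* ℂˣ, χ ∈ S) →
  |(Matrix.of fun g h : {g : G // g ≠ 1} => f (g.1 * h.1) - f g.1).det| =
    ∏ χ ∈ S.erase 1, ‖∑ g, ((χ g : ℂˣ) : ℂ) * (f g : ℂ)‖

/-- `log |1 - exp (2 π i u / f)|` -/
noncomputable def lg (f : ℕ) (u : ZMod f) : ℝ :=
  Real.log ‖1 - Complex.exp (2 * Real.pi * Complex.I * (u.val : ℂ) / f)‖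

/-- L1: the value at `1` of the `L`-function of an even primitive character. -/
def S_L1 : Prop := ∀ (f : ℕ) [NeZero f] (χ : DirichletCharacter ℂ f), χ.IsPrimitive → χ ≠ 1 →
  χ (-1) = 1 →
  ‖DirichletCharacter.LFunction χ 1‖ * Real.sqrt f =
    ‖∑ u : (ZMod f)ˣ, χ (u : ZMod f) * (lg f (u : ZMod f) : ℂ)‖

/-- the value at `1` of the `L`-function of the primitive character of `χ` -/
noncomputable def Lone {n : ℕ} [NeZero n] (χ : DirichletCharacter ℂ n) : ℂ :=
  haveI : NeZero χ.conductor := ⟨χ.conductor_ne_zero⟩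
  DirichletCharacter.LFunction χ.primitiveCharacter 1

/-- RES: the residue of the Dedekind zeta function of a subfield of a cyclotomic field. -/
def S_RES : Prop := ∀ (n : ℕ) [NeZero n] (L : Type) [Field L] [NumberField L]
  [IsCyclotomicExtension {n} ℚ L] (F : IntermediateField ℚ L),
  (dedekindZeta_residue F : ℂ) =
    ∏ᶠ χ : {χ : DirichletCharacter ℂ n // χ ∈ H300.HW.YY n L F ∧ χ ≠ 1}, Lone χ.1

/-! ### Cyclotomic units -/

/-- the real number `(-1)^x 2 sin (π x / q)`, that is `- i (ζ^(x/2) - ζ^(-x/2))` with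
`ζ = exp (2 π i / q)` and `x / 2` the half of `x` modulo the odd number `q` -/
noncomputable def th (q : ℕ) (x : ZMod q) : ℝ :=
  (-1) ^ x.val * (2 * Real.sin (Real.pi * x.val / q))

/-- UNITS: the cyclotomic units of a real subfield `K` of the `q`-th cyclotomic field, `q` odd, as
products of the numbers `th`, with all their conjugates. -/
def S_UNITS : Prop := ∀ (q : ℕ) [NeZero q], Odd q → 1 < q → ∀ (L : Type) [Field L] [NumberField L]
  [IsCyclotomicExtension {q} ℚ L] (K : IntermediateField ℚ L)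
  (φ : L →+* ℂ), φ ((H300.HW.zz q L : 𝓞 L) : L) = Complex.exp (2 * Real.pi * Complex.I / q) →
  (IsCyclotomicExtension.Rat.galEquivZMod q L).symm (-1) ∈ K.fixingSubgroup →
  ∀ R : Finset (ZMod q)ˣ,
    (∀ a : (ZMod q)ˣ, (a ∈ R ∨ -a ∈ R) ↔
      (IsCyclotomicExtension.Rat.galEquivZMod q L).symm a ∈ K.fixingSubgroup) →
    (∀ a ∈ R, -a ∉ R) →
    ∀ b : (ZMod q)ˣ, ∃ u : (𝓞 K)ˣ, ∀ c : (ZMod q)ˣ,
      φ ((IsCyclotomicExtension.Rat.galEquivZMod q L).symm c (((u : 𝓞 K) : K) : L)) =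
        ((∏ a ∈ R, th q ((c * b * a : (ZMod q)ˣ) : ZMod q) / th q ((c * a : (ZMod q)ˣ) : ZMod q) :
          ℝ) : ℂ)

/-! ### The curve `X_0(14)` -/

/-- The number of the affine points over the ring `R`. -/
noncomputable def pts (R : Type) [CommRing R] : ℕ :=
  Nat.card {P : R × R // (E14.map (Int.castRingHom R)).toAffine.Equation P.1 P.2}

/-- `a_v` -/
noncomputable def av {K : Type} [Field K] [NumberField K] (v : HeightOneSpectrum (𝓞 K)) : ℤ :=
  (Ideal.absNorm v.asIdeal : ℤ) - pts (𝓞 K ⧸ v.asIdeal)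

/-- The Euler factor at `v`. -/
noncomputable def fE {K : Type} [Field K] [NumberField K] (s : ℂ) (v : HeightOneSpectrum (𝓞 K)) :
    ℂ :=
  (1 - (av v : ℂ) * (Ideal.absNorm v.asIdeal : ℂ) ^ (-s) +
    if ((14 : ℤ) : 𝓞 K) ∈ v.asIdeal then 0 else (Ideal.absNorm v.asIdeal : ℂ) ^ (1 - 2 * s))⁻¹

/-- LK: the Euler product of `X_0(14)` over a subfield of a cyclotomic field. -/
def S_LK : Prop := ∀ (n : ℕ) [NeZero n], n.Coprime 14 → ∀ (L : Type) [Field L] [NumberField L]
  [IsCyclotomicExtension {n} ℚ L] (F : IntermediateField ℚ L)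
  (G : DirichletCharacter ℂ n → ℂ → ℂ) (s : ℂ), 3 / 2 < s.re →
  (∀ χ ∈ H300.HW.YY n L F, HasProd (fun p : Nat.Primes =>
    (1 - (ap E14 p : ℂ) * χ.primitiveCharacter p * (p : ℂ) ^ (-s) +
      (if (p : ℕ) ∣ 14 then 0 else (p : ℂ)) * (χ.primitiveCharacter p) ^ 2 *
        (p : ℂ) ^ (-2 * s))⁻¹) (G χ s)) →
  HasProd (fE (K := F) s) (∏ᶠ χ : H300.HW.YY n L F, G χ s)

/-- The subgroup of the points of `X_0(14)` over `k` generated by those with nonsingular
reduction. -/
noncomputable def E0 (k : Type) [Field k] (v : Valuation k (WithZero (Multiplicative ℤ))) :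
    AddSubgroup (E14.map (Int.castRingHom k)).toAffine.Point :=
  AddSubgroup.closure {P | ∀ x y h, P = WeierstrassCurve.Affine.Point.some x y h →
    1 < v x ∨ v (E14.a₁ * y - (3 * x ^ 2 + 2 * E14.a₂ * x + E14.a₄)) = 1 ∨
      v (2 * y + E14.a₁ * x + E14.a₃) = 1}

/-- TAMG: good reduction -/
def S_TAMG : Prop := ∀ (k : Type) [Field k] [CharZero k]
  (v : Valuation k (WithZero (Multiplicative ℤ))), (∀ n : ℤ, v n ≤ 1) → v 14 = 1 →
  E0 k v = ⊤

/-- TAM7: type `I₃`, split -/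
def S_TAM7 : Prop := ∀ (k : Type) [Field k] [CharZero k]
  (v : Valuation k (WithZero (Multiplicative ℤ))), (∀ n : ℤ, v n ≤ 1) → v 7 = exp (-1 : ℤ) →
  (E0 k v).index ∣ 3

/-- TAM2: type `I₆`, not split -/
def S_TAM2 : Prop := ∀ (k : Type) [Field k] [CharZero k]
  (v : Valuation k (WithZero (Multiplicative ℤ))), (∀ n : ℤ, v n ≤ 1) → v 2 = exp (-1 : ℤ) →
  (∀ x : k, v x ≤ 1 → v (x ^ 2 + x + 1) = 1) → (E0 k v).index = 2

/-- SHAVC: the group of points and the Tate-Shafarevich group over a number field do not depend on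
the Weierstrass equation. -/
def S_SHAVC : Prop := ∀ (K : Type) [Field K] [NumberField K] (W W' : WeierstrassCurve K)
  (C : WeierstrassCurve.VariableChange K), W.Δ ≠ 0 → C • W = W' →
  Nonempty (W.toAffine.Point ≃+ W'.toAffine.Point) ∧
    Nonempty (Pool.Agent.TH841.NF.D.Sha W ≃+ Pool.Agent.TH841.NF.D.Sha W')

end Pool.Agent.Y682.XT
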